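import Pool.Agent.H577R2.BJ.Mem

/-!
# Bottleneck just-in-time sequencing is co-NP-complete

Membership in `co-NP` is the (known) criterion with two times `x ≤ y`, proved here by Hall's
theorem for intervals.

Hardness.  If all but at most `1 / (2 (1 - B))` of the rates `r_i = d_i / D` are equal to the minimal
rate, then a word exists if and only if `∑ ⌈y r_i - B⌉ ≤ y` for all times `y` (`word_of_single`).
For `n` items, `B` slightly below `(n - 1) / n`, and rates which are small integer combinations of
the numbers `1 / q_ℓ`, with pairwise coprime `q_ℓ ≡ 1 (mod n)` of almost the same size, a violating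
time corresponds by the Chinese remainder theorem to a solution `u` in nonnegative integers of a
system of linear inequalities `h_i(u) ≥ 0`, `∑ h_i(u) ≤ n - 1`, and 3SAT is easily written in this
form.
-/

namespace Pool.Agent.Results.MP_cedc2d_lc.BJITCoNPComplete

open Pool.Agent.NPC Pool.Agent.H577R2

/-- The decision problem `BJIT` is `co-NP`-complete, and it is in `NP` iff `NP = co-NP`. -/
theorem result : InCoNPP BJIT ∧ CoNPHardP BJIT ∧
    (InNPP BJIT ↔ ∀ L : Set (List Bool), InNP L ↔ InCoNP L) :=
  ⟨Pool.Agent.NPC.H577R2.bjit_inCoNP, Pool.Agent.NPC.H577R2.bjit_hard,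
    Pool.Agent.NPC.H577R2.bjit_inNP_iff⟩

end Pool.Agent.Results.MP_cedc2d_lc.BJITCoNPComplete
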